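import Mathlib

set_option autoImplicit false
set_option maxRecDepth 100000

/-!
# A connected 2-terminal graph that is not the path `P₅`
-/

namespace Pool.Agent.Results.MP_3d4fca_co.NineVertices

section
variable {V : Type}

/-- The `r`-ball of `v`, for the extended distance (infinite between different components). -/
def ball (G : SimpleGraph V) (r : ℕ) (v : V) : Set V := {u | G.edist v u ≤ r}

/-- `G` has no pair of `r`-twins. -/
def TwinFree (G : SimpleGraph V) (r : ℕ) : Prop := ∀ u v, u ≠ v → ball G r u ≠ ball G r v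

/-- `G` is `r`-terminal: it is `r`-twin-free, and deleting any vertex `v` gives a graph that is not
`r`-twin-free. -/
def Terminal (G : SimpleGraph V) (r : ℕ) : Prop :=
  TwinFree G r ∧ ∀ v, ¬ TwinFree (G.induce {u | u ≠ v}) r

lemma edist_le_two (G : SimpleGraph V) (u v : V) :
    G.edist u v ≤ 2 ↔ u = v ∨ G.Adj u v ∨ ∃ w, G.Adj u w ∧ G.Adj w v := by
  constructor
  · intro h
    have hne : G.edist u v ≠ ⊤ := by
      intro e
      rw [e] at h
      exact absurd h (by decide)
    obtain ⟨p, hp⟩ := G.exists_walk_of_edist_ne_top hne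
    rw [← hp] at h
    have h2 : p.length ≤ 2 := by exact_mod_cast h
    cases p with
    | nil => exact Or.inl rfl
    | cons h1 p =>
      cases p with
      | nil => exact Or.inr (Or.inl h1)
      | cons h2' p =>
        cases p with
        | nil => exact Or.inr (Or.inr ⟨_, h1, h2'⟩)
        | cons h3 p =>
          simp only [SimpleGraph.Walk.length_cons] at h2
          omega
  · rintro (rfl | h | ⟨w, h1, h2⟩)
    · rw [SimpleGraph.edist_self]
      exact bot_le
    · have := G.edist_le (SimpleGraph.Walk.cons h SimpleGraph.Walk.nil)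
      refine this.trans ?_
      simp only [SimpleGraph.Walk.length_cons, SimpleGraph.Walk.length_nil]
      norm_num
    · have := G.edist_le (SimpleGraph.Walk.cons h1 (SimpleGraph.Walk.cons h2 SimpleGraph.Walk.nil))
      refine this.trans ?_
      simp only [SimpleGraph.Walk.length_cons, SimpleGraph.Walk.length_nil]
      norm_num

lemma mem_ball_two (G : SimpleGraph V) (v u : V) :
    u ∈ ball G 2 v ↔ v = u ∨ G.Adj v u ∨ ∃ w, G.Adj v w ∧ G.Adj w u := by
  unfold ball
  exact edist_le_two G v u

end

/-- The adjacency of the example. -/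
def adj (i j : Fin 9) : Bool :=
  ([(0, 7), (1, 6), (2, 7), (2, 8), (3, 5), (3, 7), (4, 5), (4, 6), (4, 8), (5, 8), (6, 8)] :
    List (Fin 9 × Fin 9)).contains (i, j) ||
  ([(0, 7), (1, 6), (2, 7), (2, 8), (3, 5), (3, 7), (4, 5), (4, 6), (4, 8), (5, 8), (6, 8)] :
    List (Fin 9 × Fin 9)).contains (j, i)

/-- A graph with 9 vertices and 11 edges. -/
def graph : SimpleGraph (Fin 9) where
  Adj i j := adj i j = true
  symm := ⟨by unfold adj; decide +kernel⟩
  loopless := ⟨by unfold adj; decide +kernel⟩

instance : DecidableRel graph.Adj := fun i j => by unfold graph; infer_instance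

lemma connected : graph.Connected := by
  have e (i j : Fin 9) (h : graph.Adj i j) : graph.Reachable i j := SimpleGraph.Adj.reachable h
  have h7 : graph.Reachable 0 7 := e _ _ (by decide)
  have h2 : graph.Reachable 0 2 := h7.trans (e _ _ (by decide))
  have h8 : graph.Reachable 0 8 := h2.trans (e _ _ (by decide))
  have h3 : graph.Reachable 0 3 := h7.trans (e _ _ (by decide))
  have h5 : graph.Reachable 0 5 := h3.trans (e _ _ (by decide))
  have h4 : graph.Reachable 0 4 := h5.trans (e _ _ (by decide))
  have h6 : graph.Reachable 0 6 := h4.trans (e _ _ (by decide))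
  have h1 : graph.Reachable 0 1 := h6.trans (e _ _ (by decide))
  have h : ∀ v : Fin 9, graph.Reachable 0 v := by
    intro v
    fin_cases v
    exacts [SimpleGraph.Reachable.refl _, h1, h2, h3, h4, h5, h6, h7, h8]
  exact { preconnected := fun u v => (h u).symm.trans (h v), nonempty := ⟨0⟩ }

lemma twinFree_check : ∀ u v : Fin 9, u ≠ v → ∃ x : Fin 9,
    ¬ ((u = x ∨ graph.Adj u x ∨ ∃ w, graph.Adj u w ∧ graph.Adj w x) ↔
      (v = x ∨ graph.Adj v x ∨ ∃ w, graph.Adj v w ∧ graph.Adj w x)) := by
  decide +kernel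

lemma twins_check : ∀ v : Fin 9, ∃ a b : Fin 9, a ≠ v ∧ b ≠ v ∧ a ≠ b ∧ ∀ x : Fin 9, x ≠ v →
    ((a = x ∨ graph.Adj a x ∨ ∃ w, w ≠ v ∧ graph.Adj a w ∧ graph.Adj w x) ↔
      (b = x ∨ graph.Adj b x ∨ ∃ w, w ≠ v ∧ graph.Adj b w ∧ graph.Adj w x)) := by
  decide +kernel

lemma terminal : Terminal graph 2 := by
  constructor
  · intro u v huv h
    obtain ⟨x, hx⟩ := twinFree_check u v huv
    apply hx
    rw [← mem_ball_two graph u x, ← mem_ball_two graph v x, h]
  · intro v h
    obtain ⟨a, b, ha, hb, hab, hx⟩ := twins_check v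
    refine h ⟨a, ha⟩ ⟨b, hb⟩ (fun e => hab (congrArg Subtype.val e)) ?_
    ext ⟨x, hxv⟩
    rw [mem_ball_two, mem_ball_two]
    simp only [Subtype.mk.injEq, SimpleGraph.comap_adj, Function.Embedding.subtype_apply,
      Subtype.exists, Set.mem_ofPred_eq, exists_prop]
    exact hx x hxv

/-- Q1: yes, there is a connected 2-terminal graph (with 9 vertices) that is not isomorphic to
`P₅`. -/
theorem result :
    ∃ G : SimpleGraph (Fin 9), G.Connected ∧ Terminal G 2 ∧
      IsEmpty (G ≃g SimpleGraph.pathGraph 5) := by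
  refine ⟨graph, connected, terminal, ⟨fun e => ?_⟩⟩
  have := Fintype.card_congr e.toEquiv
  simp at this

end Pool.Agent.Results.MP_3d4fca_co.NineVertices
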